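import Mathlib
import Pool.Agent.R33.SegFin

/-!
# Approximate covering of the segment is not solvable in ASYNC with neighbour visibility

The model (`Protocol`, `Execution`, `Covers`) is in `Pool/Agent/R33/SegDefs.lean`.

For every deterministic oblivious protocol there are a number of sensors, an initial placement and
an admissible ASYNC execution that never reaches an `ε`-approximate covering, for some `ε > 0`;
this holds even if all the sensors use the same local coordinate system and can count the sensors
that share a point.

Idea. If a destination computed from a snapshot is not strictly between the two neighbours, then
the sensor can be stopped exactly on a neighbour, and these two sensors can be kept together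
forever. Otherwise, a sensor which is not in the middle of its two neighbours makes a snapshot
and its move is delayed, while the other sensors on its side (for which it looks like an end
sensor) spread out; if there are enough sensors, one of them gets between the delayed sensor and
its destination, and then the delayed sensor is stopped on top of it.
-/

namespace Pool.Agent.Results.MP_362848_lc.AsyncSegmentUnsolvable

open SegCover

theorem result (P : Protocol) :
    ∃ n : ℕ, 2 ≤ n ∧ ∃ E : Execution P n, (∀ i j, E.frame i = E.frame j) ∧
      ∃ ε : ℝ, 0 < ε ∧ ∀ t, 0 ≤ t → ¬ Covers ε (fun i => E.pos i t) := by
  by_contra hc
  apply not_good P
  intro n hn E hE ε hε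
  by_contra hc'
  push Not at hc'
  exact hc ⟨n, hn, E, hE, ε, hε, fun t ht => hc' t ht⟩

end Pool.Agent.Results.MP_362848_lc.AsyncSegmentUnsolvable
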